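import Pool.Agent.H453Z.Rs.Core

set_option autoImplicit false

open Filter Topology Set Cardinal
open scoped Pointwise

namespace H453Z.Rs

theorem bn_mem : ∃ F : Set (ℕ → ℕ), #F = boundingNumber ∧
    ¬ ∃ g : ℕ → ℕ, ∀ f ∈ F, ∀ᶠ n in atTop, f n ≤ g n := by
  have : {c : Cardinal | ∃ F : Set (ℕ → ℕ), #F = c ∧
      ¬ ∃ g : ℕ → ℕ, ∀ f ∈ F, ∀ᶠ n in atTop, f n ≤ g n}.Nonempty := by
    refine ⟨_, univ, rfl, ?_⟩
    rintro ⟨g, hg⟩
    obtain ⟨n, hn⟩ := (hg (fun n => g n + 1) (mem_univ _)).exists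
    omega
  exact csInf_mem this

theorem bdd_of_lt {ι : Type} (h : #ι < boundingNumber) (f : ι → ℕ → ℕ) :
    ∃ g : ℕ → ℕ, ∀ i, ∀ᶠ n in atTop, f i n ≤ g n := by
  by_contra hcon
  have h1 : boundingNumber ≤ #(range f) := by
    refine csInf_le' ⟨range f, rfl, ?_⟩
    rintro ⟨g, hg⟩
    exact hcon ⟨g, fun i => hg _ ⟨i, rfl⟩⟩
  exact absurd (h1.trans mk_range_le) (not_le.2 h)

theorem bdd_of_countable (f : ℕ → ℕ → ℕ) : ∃ g : ℕ → ℕ, ∀ i, ∀ᶠ n in atTop, f i n ≤ g n := by
  refine ⟨fun k => (Finset.range (k + 1)).sup fun n => f n k, fun n => ?_⟩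
  filter_upwards [eventually_ge_atTop n] with k hk
  exact Finset.le_sup (f := fun n => f n k) (Finset.mem_range.mpr (by omega))

theorem aleph_one_le_bn : ℵ₁ ≤ boundingNumber := by
  rw [← succ_aleph0, Order.succ_le_iff]
  by_contra h
  push Not at h
  obtain ⟨F, hF, hF2⟩ := bn_mem
  rw [← hF] at h
  have hc := le_aleph0_iff_set_countable.mp h
  rcases F.eq_empty_or_nonempty with rfl | hne
  · exact hF2 ⟨0, fun f hf => absurd hf (by simp)⟩
  · obtain ⟨e, rfl⟩ := hc.exists_eq_range hne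
    obtain ⟨g, hg⟩ := bdd_of_countable e
    refine hF2 ⟨g, ?_⟩
    rintro _ ⟨i, rfl⟩
    exact hg i

variable {G : Type} [Group G]

omit [Group G] in
theorem exists_null_set {U : ℕ → Set G} (hU : Antitone U) [Countable G] (S : Set (ℕ → G))
    (hS : #S < boundingNumber) (hconv : ∀ u ∈ S, ∀ k, ∀ᶠ n in atTop, u n ∈ U k) :
    ∃ T : Set G, (∀ k, (T \ U k).Finite) ∧ (∀ x, (∀ k, x ∈ U k) → x ∈ T) ∧
      ∀ u ∈ S, ∀ᶠ n in atTop, u n ∈ T := by
  obtain ⟨idx, hidx⟩ := exists_injective_nat G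
  have h1 : ∀ (u : S) (k : ℕ), ∃ M : ℕ, ∀ n, u.1 n ∉ U k → idx (u.1 n) ≤ M := by
    intro u k
    obtain ⟨N, hN⟩ := eventually_atTop.1 (hconv u.1 u.2 k)
    refine ⟨(Finset.range N).sup fun n => idx (u.1 n), fun n hn => ?_⟩
    refine Finset.le_sup (f := fun n => idx (u.1 n)) (Finset.mem_range.2 ?_)
    by_contra h
    exact hn (hN n (not_lt.1 h))
  choose f hf using h1
  obtain ⟨h, hh⟩ := bdd_of_lt hS f
  refine ⟨{x | ∀ k, x ∉ U k → idx x ≤ h k}, fun k => ?_, fun x hx k hk => absurd (hx k) hk, ?_⟩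
  · refine ((finite_Iic (h k)).preimage hidx.injOn).subset ?_
    intro x hx
    exact hx.1 k hx.2
  · intro u hu
    obtain ⟨k0, hk0⟩ := eventually_atTop.1 (hh ⟨u, hu⟩)
    filter_upwards [hconv u hu k0] with n hn k hk
    rcases le_total k k0 with h1 | h1
    · exact absurd (hU h1 hn) hk
    · exact (hf ⟨u, hu⟩ k n hk).trans (hk0 k h1)

theorem isCompact_of_null [TopologicalSpace G] {U : ℕ → Set G}
    (hb : (𝓝 (1 : G)).HasBasis (fun _ : ℕ => True) U) {T : Set G} (h1 : (1 : G) ∈ T)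
    (hT : ∀ k, (T \ U k).Finite) : IsCompact T := by
  have h2 : Tendsto (Subtype.val : T → G) cofinite (𝓝 1) := by
    rw [hb.tendsto_right_iff]
    intro k _
    rw [eventually_cofinite]
    refine ((hT k).preimage Subtype.val_injective.injOn).subset ?_
    intro x hx
    exact ⟨x.2, hx⟩
  have h3 := h2.isCompact_insert_range_of_cofinite
  rwa [Subtype.range_coe, insert_eq_of_mem h1] at h3

/-- The lower bound. -/
theorem bn_le_of_generates [τ : TopologicalSpace G] [IsTopologicalGroup G] [T2Space G]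
    [FrechetUrysohnSpace G] [Countable G] (hnd : ¬ DiscreteTopology G) (S : Set (ℕ → G))
    (hS : Generates S τ) : boundingNumber ≤ #S := by
  by_contra hlt
  rw [not_le] at hlt
  obtain ⟨e, he⟩ := exists_surjective_nat G
  have hO : ∀ k, {x : G | e k ≠ 1 → x ≠ e k} ∈ 𝓝 (1 : G) := by
    intro k
    by_cases h : e k = 1
    · exact univ_mem' fun x hx => absurd h hx
    · filter_upwards [isOpen_compl_singleton.mem_nhds (Ne.symm h)] with x hx _ using hx
  obtain ⟨U, hU, hUn, -, hUO⟩ := exists_chain e _ hO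
  have hconv : ∀ u ∈ S, ∀ k, ∀ᶠ n in atTop, u n ∈ U k := fun u hu k =>
    (hS.1.2.2 u hu).eventually (hUn k)
  obtain ⟨T0, hT1, hT2, hT3⟩ := exists_null_set hU.anti S hlt hconv
  set T : Set G := T0 ∪ T0⁻¹ with hT
  have hTi : ∀ x ∈ T, x⁻¹ ∈ T := by
    rintro x (hx | hx)
    · exact Or.inr (by simpa using hx)
    · exact Or.inl hx
  have hTf : ∀ k, (T \ U k).Finite := by
    intro k
    refine ((hT1 k).union (hT1 k).inv).subset ?_
    rintro x ⟨hx | hx, hxU⟩
    · exact Or.inl ⟨hx, hxU⟩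
    · exact Or.inr ⟨hx, fun h => hxU (by simpa using hU.inv k _ h)⟩
  have hT1' : (1 : G) ∈ T := Or.inl (hT2 1 hU.one)
  have hdisc : ∀ x : G, IsOpen ({x} : Set G) → False := by
    intro x hx
    refine hnd (discreteTopology_of_isOpen_singleton_one ?_)
    have := hx.preimage (continuous_const_mul x)
    convert this using 1
    ext z
    simp
  have hesc := exists_escaping hnd (fun d => W e (fun _ => T) d 0) (W_mono_depth e _ 0)
  have hinter : ∀ P O : Set G, IsOpen P → IsOpen O → IsOpen (P ∩ O) := fun P O h1 h2 => h1.inter h2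
  have hsub : ∀ (y : ℕ → G) (φ : ℕ → ℕ) (V : Set G), Tendsto y atTop (𝓝 1) → StrictMono φ →
      V ∈ 𝓝 (1 : G) → ∃ d, y (φ d) ∈ V := fun y φ V h1 h2 h3 =>
    ((h1.comp h2.tendsto_atTop).eventually h3).exists
  have hτ : IsTopologicalGroup G := inferInstance
  obtain ⟨t, ht, hb⟩ := hU.exists_top he
  have hle : τ ≤ t := by
    refine le_of_nhds_one_le τ t hτ ht ?_
    intro V hV
    obtain ⟨k, -, hk⟩ := hb.mem_iff.1 hV
    exact mem_of_superset (hUn k) hk
  have ht2 : T2Space G := by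
    refine IsTopologicalGroup.t2Space_of_one_sep fun x hx => ?_
    obtain ⟨k, rfl⟩ := he x
    exact ⟨U (k + 1), hb.mem_of_mem trivial, fun h => hUO k h hx rfl⟩
  have hTc : IsCompact T := isCompact_of_null hb hT1' hTf
  obtain ⟨y, hy1, hy2⟩ := hesc (by
    intro m O hO hne hsub'
    obtain ⟨P, hP, x, hx⟩ := exists_isolated (isCompact_W e (fun _ => hTc) m 0) hsub' hne
    refine hdisc x ?_
    rw [← hx]
    exact hinter P O (hle P hP) hO)
  obtain ⟨φ, hφ, hφy⟩ := extraction_forall_of_eventually hy2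
  obtain ⟨V, j, hV, hVT, hVy⟩ := exists_chain_missing hU hb hTc hTi (fun d => y (φ d)) hφy
  have hV0 := hS.chain_mem he hV (by
    intro u hu k
    filter_upwards [hT3 u hu, hconv u hu (j k)] with n h1 h2
    exact hVT k ⟨Or.inl h1, h2⟩) 0
  obtain ⟨d, hd⟩ := hsub y φ (V 0) hy1 hφ hV0
  exact hVy d hd

/-- The upper bound. -/
theorem exists_generates_le_bn [τ : TopologicalSpace G] [IsTopologicalGroup G] [T2Space G]
    [FirstCountableTopology G] [Countable G] :
    ∃ S : Set (ℕ → G), Generates S τ ∧ #S ≤ boundingNumber := by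
  classical
  obtain ⟨e, he⟩ := exists_surjective_nat G
  obtain ⟨U, hU⟩ := (𝓝 (1 : G)).exists_antitone_basis
  obtain ⟨F, hF, hFu⟩ := bn_mem
  let mo : (ℕ → ℕ) → ℕ → ℕ := fun f k => (Finset.range (k + 1)).sup f
  have hmo1 : ∀ f, Monotone (mo f) := fun f k l hkl =>
    Finset.sup_mono (Finset.range_mono (by omega))
  have hmo2 : ∀ f k, f k ≤ mo f k := fun f k =>
    Finset.le_sup (f := f) (Finset.mem_range.mpr (by omega))
  let s : (ℕ → ℕ) → ℕ → G := fun f n => if ∀ k, mo f k < n → e n ∈ U k then e n else 1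
  have hsep : ∀ x : G, x ≠ 1 → ∃ k, x ∉ U k := by
    intro x hx
    obtain ⟨k, hk⟩ := hU.mem_iff.1 (isOpen_compl_singleton.mem_nhds (Ne.symm hx))
    exact ⟨k, fun h => hk h rfl⟩
  have hτ : IsTopologicalGroup G := inferInstance
  refine ⟨s '' F, ⟨⟨inferInstance, inferInstance, ?_⟩, ?_⟩, mk_image_le.trans hF.le⟩
  · rintro _ ⟨f, -, rfl⟩
    rw [hU.toHasBasis.tendsto_right_iff]
    intro k _
    filter_upwards [eventually_gt_atTop (mo f k)] with n hn
    simp only [s]
    split_ifs with h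
    · exact h k hn
    · exact mem_of_mem_nhds (hU.mem k)
  · intro t ht
    refine le_of_nhds_one_le τ t hτ ht.1 ?_
    intro V hV
    by_contra hcon
    have h1V : (1 : G) ∈ V := @mem_of_mem_nhds G t _ _ hV
    -- many bad indices
    have hbad : ∀ m k : ℕ, ∃ n, m ≤ n ∧ e n ∉ V ∧ e n ∈ U k := by
      intro m k
      have h1 : ∀ n, ∃ l, e n ∈ U l → e n = 1 := by
        intro n
        by_cases h : e n = 1
        · exact ⟨0, fun _ => h⟩
        · obtain ⟨l, hl⟩ := hsep _ h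
          exact ⟨l, fun h' => absurd h' hl⟩
      choose l hl using h1
      have h2 : ¬ U (max k ((Finset.range m).sup l)) ⊆ V := fun h =>
        hcon (mem_of_superset (hU.mem _) h)
      obtain ⟨x, hx1, hx2⟩ := not_subset.1 h2
      obtain ⟨n, rfl⟩ := he x
      refine ⟨n, ?_, hx2, hU.antitone (le_max_left _ _) hx1⟩
      by_contra h
      have h3 : l n ≤ (Finset.range m).sup l := Finset.le_sup (Finset.mem_range.2 (not_le.1 h))
      have h4 := hl n (hU.antitone (h3.trans (le_max_right _ _)) hx1)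
      exact hx2 (h4 ▸ h1V)
    choose g hg1 hg2 hg3 using hbad
    obtain ⟨h, hh⟩ := bdd_of_countable g
    refine hFu ⟨h, fun f hf => ?_⟩
    obtain ⟨m, hm⟩ := eventually_atTop.1 ((ht.2.2 _ (mem_image_of_mem s hf)).eventually hV)
    filter_upwards [hh m] with k hk
    refine (hmo2 f k).trans (le_trans ?_ hk)
    by_contra hlt
    rw [not_le] at hlt
    have h5 := hm _ (hg1 m k)
    have h6 : ∀ l, mo f l < g m k → e (g m k) ∈ U l := by
      intro l hl
      have : l ≤ k := by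
        by_contra h7
        exact absurd (hl.trans hlt) (not_lt.2 (hmo1 f (not_le.1 h7).le))
      exact hU.antitone this (hg3 m k)
    simp only [s, if_pos h6] at h5
    exact hg2 m k h5

theorem bn_le_rs (G : Type) [Group G] [τ : TopologicalSpace G] [IsTopologicalGroup G] [T2Space G]
    [FrechetUrysohnSpace G] [Countable G] (hnd : ¬ DiscreteTopology G) :
    boundingNumber ≤ rs G τ := by
  have : {c : Cardinal | ∃ S : Set (ℕ → G), Generates S τ ∧ #S = c}.Nonempty :=
    ⟨_, _, generates_all, rfl⟩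
  obtain ⟨S, hS, hc⟩ := csInf_mem this
  unfold rs
  rw [← hc]
  exact bn_le_of_generates hnd S hS

theorem rs_le_bn (G : Type) [Group G] [τ : TopologicalSpace G] [IsTopologicalGroup G] [T2Space G]
    [FirstCountableTopology G] [Countable G] : rs G τ ≤ boundingNumber := by
  obtain ⟨S, hS, hc⟩ := exists_generates_le_bn (G := G)
  refine le_trans ?_ hc
  exact csInf_le' ⟨S, hS, rfl⟩

theorem rs_discrete (G : Type) [Group G] [τ : TopologicalSpace G] [DiscreteTopology G] :
    rs G τ = 0 := by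
  refine le_antisymm (csInf_le' ⟨∅, ⟨⟨inferInstance, inferInstance, by simp⟩, ?_⟩, by simp⟩)
    (zero_le)
  have h : ∀ U : Set G, IsOpen U := isOpen_discrete
  intro t _ U _
  exact h U

end H453Z.Rs
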