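import Pool.Agent.H453Z.Rs.Defs

set_option autoImplicit false

open Filter Topology Set
open scoped Pointwise

namespace H453Z.Rs

variable {G : Type} [Group G]

/-- a decreasing chain of sets which is a base at the identity of a group topology -/
structure Chain (e : ℕ → G) (V : ℕ → Set G) : Prop where
  one : ∀ k, (1 : G) ∈ V k
  inv : ∀ k x, x ∈ V k → x⁻¹ ∈ V k
  mul : ∀ k x y, x ∈ V (k + 1) → y ∈ V (k + 1) → x * y ∈ V k
  conj : ∀ k i, i ≤ k → ∀ x ∈ V (k + 1), e i * x * (e i)⁻¹ ∈ V k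

theorem Chain.anti {e : ℕ → G} {V : ℕ → Set G} (h : Chain e V) : Antitone V :=
  antitone_nat_of_succ_le fun k x hx => by
    simpa using h.mul k x 1 hx (h.one _)

theorem Chain.exists_top {e : ℕ → G} (he : Function.Surjective e) {V : ℕ → Set G}
    (h : Chain e V) : ∃ t : TopologicalSpace G, @IsTopologicalGroup G t _ ∧
      (@nhds G t 1).HasBasis (fun _ : ℕ => True) V := by
  let B : GroupFilterBasis G :=
    { sets := range V
      nonempty := range_nonempty V
      inter_sets := by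
        rintro _ _ ⟨a, rfl⟩ ⟨b, rfl⟩
        exact ⟨V (max a b), ⟨_, rfl⟩,
          subset_inter (h.anti (le_max_left _ _)) (h.anti (le_max_right _ _))⟩
      one' := by
        rintro _ ⟨a, rfl⟩
        exact h.one a
      mul' := by
        rintro _ ⟨a, rfl⟩
        refine ⟨V (a + 1), ⟨_, rfl⟩, ?_⟩
        rintro _ ⟨x, hx, y, hy, rfl⟩
        exact h.mul a x y hx hy
      inv' := by
        rintro _ ⟨a, rfl⟩
        exact ⟨V a, ⟨_, rfl⟩, fun x hx => h.inv a x hx⟩
      conj' := by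
        rintro x₀ _ ⟨a, rfl⟩
        obtain ⟨i, rfl⟩ := he x₀
        refine ⟨V (max a i + 1), ⟨_, rfl⟩, fun x hx => ?_⟩
        exact h.anti (le_max_left a i) (h.conj _ i (le_max_right a i) x hx) }
  refine ⟨B.topology, B.isTopologicalGroup, ?_⟩
  have := B.nhds_one_hasBasis
  refine this.to_hasBasis ?_ ?_
  · rintro _ ⟨a, rfl⟩
    exact ⟨a, trivial, subset_rfl⟩
  · intro a _
    exact ⟨V a, ⟨a, rfl⟩, subset_rfl⟩

/-- comparison of group topologies at the identity -/
theorem le_of_nhds_one_le (τ t : TopologicalSpace G) (hτ : @IsTopologicalGroup G τ _)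
    (ht : @IsTopologicalGroup G t _) (hle : @nhds G τ 1 ≤ @nhds G t 1) : τ ≤ t := by
  have hcont : @Continuous G G τ t (MonoidHom.id G) :=
    @continuous_of_continuousAt_one G τ _ hτ G _ _ t
      (@IsTopologicalGroup.toContinuousMul _ t _ ht) _ _ (MonoidHom.id G) (by
        unfold ContinuousAt
        exact hle)
  intro U hU
  exact @IsOpen.preimage _ _ τ t _ hcont U hU

/-- If `τ = τ_S` then the neighbourhoods of the identity in any group topology in which `S`
converges are neighbourhoods in `τ`. -/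
theorem Generates.nhds_le {S : Set (ℕ → G)} {τ : TopologicalSpace G} (hS : Generates S τ)
    (t : TopologicalSpace G) (ht : @IsTopologicalGroup G t _)
    (hconv : ∀ u ∈ S, Tendsto u atTop (@nhds G t 1)) : @nhds G τ 1 ≤ @nhds G t 1 := by
  have h1 : Admissible S (τ ⊓ t) := by
    refine ⟨topologicalGroup_inf hS.1.1 ht, ?_, ?_⟩
    · exact t2Space_antitone (inf_le_left : τ ⊓ t ≤ τ) hS.1.2.1
    · intro u hu
      rw [@nhds_inf G τ t 1, tendsto_inf]
      exact ⟨hS.1.2.2 u hu, hconv u hu⟩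
  have h2 : τ ≤ τ ⊓ t := fun U hU => hS.2 _ h1 U hU
  exact nhds_mono (h2.trans inf_le_right)

theorem Generates.chain_mem {S : Set (ℕ → G)} {τ : TopologicalSpace G} (hS : Generates S τ)
    {e : ℕ → G} (he : Function.Surjective e) {V : ℕ → Set G} (h : Chain e V)
    (hconv : ∀ u ∈ S, ∀ k, ∀ᶠ n in atTop, u n ∈ V k) (k : ℕ) : V k ∈ @nhds G τ 1 := by
  obtain ⟨t, ht, hb⟩ := h.exists_top he
  refine hS.nhds_le t ht ?_ (hb.mem_of_mem trivial)
  intro u hu
  rw [hb.tendsto_right_iff]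
  intro i _
  exact hconv u hu i

/-- a chain of neighbourhoods inside a given sequence of neighbourhoods -/
theorem exists_chain [TopologicalSpace G] [IsTopologicalGroup G] (e : ℕ → G) (O : ℕ → Set G)
    (hO : ∀ k, O k ∈ 𝓝 (1 : G)) :
    ∃ U : ℕ → Set G, Chain e U ∧ (∀ k, U k ∈ 𝓝 (1 : G)) ∧ U 0 = univ ∧
      ∀ k, U (k + 1) ⊆ O k := by
  have step : ∀ (k : ℕ) (A : Set G), A ∈ 𝓝 (1 : G) → ∃ B : Set G, B ∈ 𝓝 (1 : G) ∧
      (∀ x ∈ B, x⁻¹ ∈ B) ∧ (∀ x ∈ B, ∀ y ∈ B, x * y ∈ A) ∧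
      (∀ i ≤ k, ∀ x ∈ B, e i * x * (e i)⁻¹ ∈ A) ∧ B ⊆ O k := by
    intro k A hA
    obtain ⟨C, hC, hCA⟩ := exists_nhds_one_split hA
    have h1 : ∀ᶠ x in 𝓝 (1 : G), ∀ i ∈ Finset.range (k + 1), e i * x * (e i)⁻¹ ∈ A := by
      rw [eventually_all_finset]
      intro i _
      have : Tendsto (fun x : G => e i * x * (e i)⁻¹) (𝓝 1) (𝓝 1) := by
        have h2 : Continuous (fun x : G => e i * x * (e i)⁻¹) := by fun_prop
        simpa using h2.tendsto 1
      exact this hA
    set D := C ∩ {x | ∀ i ∈ Finset.range (k + 1), e i * x * (e i)⁻¹ ∈ A} ∩ O k with hD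
    have hDn : D ∈ 𝓝 (1 : G) := inter_mem (inter_mem hC h1) (hO k)
    refine ⟨D ∩ D⁻¹, inter_mem hDn (inv_mem_nhds_one G hDn), ?_, ?_, ?_, ?_⟩
    · intro x hx
      exact ⟨hx.2, by simpa using hx.1⟩
    · intro x hx y hy
      exact hCA x hx.1.1.1 y hy.1.1.1
    · intro i hi x hx
      exact hx.1.1.2 i (Finset.mem_range.2 (by omega))
    · intro x hx
      exact hx.1.2
  choose! Φ h1 h2 h3 h4 h5 using step
  let U : ℕ → Set G := fun k => Nat.rec univ (fun k A => Φ k A) k
  have hU0 : U 0 = univ := rfl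
  have hUs : ∀ k, U (k + 1) = Φ k (U k) := fun k => rfl
  have hUn : ∀ k, U k ∈ 𝓝 (1 : G) := by
    intro k
    induction k with
    | zero => exact univ_mem
    | succ k ih => rw [hUs]; exact h1 k _ ih
  refine ⟨U, ⟨fun k => mem_of_mem_nhds (hUn k), ?_, ?_, ?_⟩, hUn, hU0, ?_⟩
  · intro k x hx
    cases k with
    | zero => trivial
    | succ k => exact h2 k _ (hUn k) x hx
  · intro k x y hx hy
    exact h3 k _ (hUn k) x hx y hy
  · intro k i hi x hx
    exact h4 k _ (hUn k) i hi x hx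
  · intro k
    exact h5 k _ (hUn k)

/-- a sequential Hausdorff group is generated by all its null sequences -/
theorem generates_all [τ : TopologicalSpace G] [IsTopologicalGroup G] [T2Space G]
    [SequentialSpace G] : Generates {u : ℕ → G | Tendsto u atTop (𝓝 1)} τ := by
  refine ⟨⟨inferInstance, inferInstance, fun u hu => hu⟩, ?_⟩
  have h0 : ∀ (x : ℕ → G) (p : G), Tendsto x atTop (𝓝 p) →
      Tendsto (fun n => p⁻¹ * x n) atTop (𝓝 1) := by
    intro x p hp
    simpa using (tendsto_const_nhds (x := p⁻¹)).mul hp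
  intro t ht U hU
  refine (@isClosed_compl_iff G τ U).1 (@IsSeqClosed.isClosed G τ _ _ ?_)
  intro x p hx hp hpU
  have h2 : Tendsto (fun n => p⁻¹ * x n) atTop (@nhds G t 1) := ht.2.2 _ (h0 x p hp)
  have h3 : Tendsto x atTop (@nhds G t p) := by
    have := ht.1
    simpa using (tendsto_const_nhds (x := p)).mul h2
  obtain ⟨n, hn⟩ := (h3.eventually (@IsOpen.mem_nhds G t _ _ hU hpU)).exists
  exact hx n hn

end H453Z.Rs
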