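import Pool.Agent.H453Z.Rs.Chain

set_option autoImplicit false

open Filter Topology Set
open scoped Pointwise

namespace H453Z.Rs

variable {G : Type} [Group G]

/-- finite depth approximations of the chain generated by the sets `A k` -/
def W (e : ℕ → G) (A : ℕ → Set G) : ℕ → ℕ → Set G
  | 0, _ => {1}
  | d + 1, k => A k ∪ (⋃ i ∈ Finset.range (k + 1), (fun x => e i * x * (e i)⁻¹) '' W e A d (k + 1))
      ∪ W e A d (k + 1) * W e A d (k + 1)

theorem mem_W_succ {e : ℕ → G} {A : ℕ → Set G} {d k : ℕ} {y : G} :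
    y ∈ W e A (d + 1) k ↔ y ∈ A k ∨
      (∃ i ≤ k, ∃ x ∈ W e A d (k + 1), e i * x * (e i)⁻¹ = y) ∨
      ∃ x ∈ W e A d (k + 1), ∃ z ∈ W e A d (k + 1), x * z = y := by
  simp only [W, mem_union, mem_iUnion, mem_image, Set.mem_mul, Finset.mem_range,
    Nat.lt_succ_iff, or_assoc, exists_prop]

theorem one_mem_W (e : ℕ → G) (A : ℕ → Set G) (d : ℕ) : ∀ k, (1 : G) ∈ W e A d k := by
  induction d with
  | zero => intro k; simp [W]
  | succ d ih =>
    intro k
    exact mem_W_succ.2 (Or.inr (Or.inr ⟨1, ih _, 1, ih _, one_mul 1⟩))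

theorem inv_mem_W (e : ℕ → G) {A : ℕ → Set G} (hA : ∀ k, ∀ x ∈ A k, x⁻¹ ∈ A k) (d : ℕ) :
    ∀ k, ∀ x ∈ W e A d k, x⁻¹ ∈ W e A d k := by
  induction d with
  | zero => intro k x hx; simpa [W] using hx
  | succ d ih =>
    intro k y hy
    rcases mem_W_succ.1 hy with h | ⟨i, hi, x, hx, rfl⟩ | ⟨x, hx, z, hz, rfl⟩
    · exact mem_W_succ.2 (Or.inl (hA k y h))
    · exact mem_W_succ.2 (Or.inr (Or.inl ⟨i, hi, x⁻¹, ih _ x hx, by group⟩))
    · exact mem_W_succ.2 (Or.inr (Or.inr ⟨z⁻¹, ih _ z hz, x⁻¹, ih _ x hx, by group⟩))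

theorem W_succ_mono (e : ℕ → G) (A : ℕ → Set G) (d : ℕ) :
    ∀ k, W e A d k ⊆ W e A (d + 1) k := by
  induction d with
  | zero =>
    intro k x hx
    have : x = 1 := by simpa [W] using hx
    rw [this]
    exact one_mem_W e A _ k
  | succ d ih =>
    intro k y hy
    rcases mem_W_succ.1 hy with h | ⟨i, hi, x, hx, rfl⟩ | ⟨x, hx, z, hz, rfl⟩
    · exact mem_W_succ.2 (Or.inl h)
    · exact mem_W_succ.2 (Or.inr (Or.inl ⟨i, hi, x, ih _ hx, rfl⟩))
    · exact mem_W_succ.2 (Or.inr (Or.inr ⟨x, ih _ hx, z, ih _ hz, rfl⟩))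

theorem W_mono_depth (e : ℕ → G) (A : ℕ → Set G) (k : ℕ) : Monotone fun d => W e A d k :=
  monotone_nat_of_le_succ fun d => W_succ_mono e A d k

theorem W_mono (e : ℕ → G) {A A' : ℕ → Set G} (h : ∀ k, A k ⊆ A' k) (d : ℕ) :
    ∀ k, W e A d k ⊆ W e A' d k := by
  induction d with
  | zero => intro k x hx; simpa [W] using hx
  | succ d ih =>
    intro k y hy
    rcases mem_W_succ.1 hy with h' | ⟨i, hi, x, hx, rfl⟩ | ⟨x, hx, z, hz, rfl⟩
    · exact mem_W_succ.2 (Or.inl (h k h'))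
    · exact mem_W_succ.2 (Or.inr (Or.inl ⟨i, hi, x, ih _ hx, rfl⟩))
    · exact mem_W_succ.2 (Or.inr (Or.inr ⟨x, ih _ hx, z, ih _ hz, rfl⟩))

theorem chain_W (e : ℕ → G) {A : ℕ → Set G} (hA : ∀ k, ∀ x ∈ A k, x⁻¹ ∈ A k) :
    Chain e (fun k => ⋃ d, W e A d k) := by
  refine ⟨fun k => mem_iUnion.2 ⟨0, one_mem_W e A 0 k⟩, ?_, ?_, ?_⟩
  · intro k x hx
    obtain ⟨d, hd⟩ := mem_iUnion.1 hx
    exact mem_iUnion.2 ⟨d, inv_mem_W e hA d k x hd⟩
  · intro k x y hx hy
    obtain ⟨d, hd⟩ := mem_iUnion.1 hx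
    obtain ⟨d', hd'⟩ := mem_iUnion.1 hy
    refine mem_iUnion.2 ⟨max d d' + 1, mem_W_succ.2 (Or.inr (Or.inr ⟨x, ?_, y, ?_, rfl⟩))⟩
    · exact W_mono_depth e A _ (le_max_left d d') hd
    · exact W_mono_depth e A _ (le_max_right d d') hd'
  · intro k i hi x hx
    obtain ⟨d, hd⟩ := mem_iUnion.1 hx
    exact mem_iUnion.2 ⟨d + 1, mem_W_succ.2 (Or.inr (Or.inl ⟨i, hi, x, hd, rfl⟩))⟩

section Top

variable [TopologicalSpace G] [IsTopologicalGroup G]

theorem isCompact_W (e : ℕ → G) {A : ℕ → Set G} (hA : ∀ k, IsCompact (A k)) (d : ℕ) :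
    ∀ k, IsCompact (W e A d k) := by
  induction d with
  | zero => intro k; exact isCompact_singleton
  | succ d ih =>
    intro k
    refine ((hA k).union ?_).union ((ih _).mul (ih _))
    refine Finset.isCompact_biUnion _ fun i _ => (ih _).image (by fun_prop)

theorem unif_conj {K : Set G} (hK : IsCompact K) {V : Set G} (hV : V ∈ 𝓝 (1 : G)) :
    ∀ᶠ u in 𝓝 (1 : G), ∀ w ∈ K, w * u * w⁻¹ ∈ V := by
  refine hK.eventually_forall_of_forall_eventually (P := fun u w => w * u * w⁻¹ ∈ V) ?_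
  intro w _
  have h1 : Continuous (fun z : G × G => z.2 * z.1 * z.2⁻¹) := by fun_prop
  have h2 := h1.tendsto ((1 : G), w)
  simp only [mul_one, mul_inv_cancel] at h2
  exact h2 hV

theorem perturb {e : ℕ → G} {U : ℕ → Set G} (hU : Chain e U)
    (hb : (𝓝 (1 : G)).HasBasis (fun _ : ℕ => True) U) {T : Set G} (hT : IsCompact T) (d : ℕ) :
    ∀ k i : ℕ, ∃ J : ℕ, ∀ A : ℕ → Set G, (∀ l, A l ⊆ T) → A (k + d) ⊆ U J →
      W e A (d + 1) k ⊆ U i * W e A d k := by
  induction d with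
  | zero =>
    intro k i
    refine ⟨i, fun A _ hA y hy => ?_⟩
    rcases mem_W_succ.1 hy with h' | ⟨l, _, x, hx, rfl⟩ | ⟨x, hx, z, hz, rfl⟩
    · exact ⟨y, hA h', 1, one_mem_W e A 0 k, mul_one y⟩
    · have : x = 1 := by simpa [W] using hx
      exact ⟨1, hU.one i, 1, one_mem_W e A 0 k, by simp [this]⟩
    · have h1 : x = 1 := by simpa [W] using hx
      have h2 : z = 1 := by simpa [W] using hz
      exact ⟨1, hU.one i, 1, one_mem_W e A 0 k, by simp [h1, h2]⟩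
  | succ d ih =>
    intro k i
    have hK : IsCompact (W e (fun _ => T) d (k + 1)) := isCompact_W e (fun _ => hT) d _
    obtain ⟨i1, -, hi1⟩ := hb.eventually_iff.1 (unif_conj hK (hb.mem_of_mem (i := i + 1) trivial))
    obtain ⟨J, hJ⟩ := ih (k + 1) (max i1 (max i k + 1))
    refine ⟨J, fun A hAT hA y hy => ?_⟩
    have hsub := hJ A hAT (by rwa [show k + 1 + d = k + (d + 1) by ring])
    have a1 : U (max i1 (max i k + 1)) ⊆ U i1 := hU.anti (le_max_left _ _)
    have a2 : U (max i1 (max i k + 1)) ⊆ U (max i k + 1) := hU.anti (le_max_right _ _)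
    have a3 : U (max i k + 1) ⊆ U (i + 1) := hU.anti (by omega)
    rcases mem_W_succ.1 hy with h' | ⟨l, hl, x, hx, rfl⟩ | ⟨x, hx, z, hz, rfl⟩
    · exact ⟨1, hU.one i, y, mem_W_succ.2 (Or.inl h'), one_mul y⟩
    · obtain ⟨u, hu, w, hw, rfl⟩ := hsub hx
      refine ⟨e l * u * (e l)⁻¹, ?_, e l * w * (e l)⁻¹,
        mem_W_succ.2 (Or.inr (Or.inl ⟨l, hl, w, hw, rfl⟩)), by group⟩
      exact hU.anti (le_max_left i k) (hU.conj _ l (hl.trans (le_max_right i k)) u (a2 hu))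
    · obtain ⟨u, hu, w, hw, rfl⟩ := hsub hx
      obtain ⟨u', hu', w', hw', rfl⟩ := hsub hz
      refine ⟨u * (w * u' * w⁻¹), ?_, w * w',
        mem_W_succ.2 (Or.inr (Or.inr ⟨w, hw, w', hw', rfl⟩)), by group⟩
      exact hU.mul i _ _ (a3 (a2 hu)) (hi1 (a1 hu') w (W_mono e hAT d _ hw))

theorem exists_chain_missing [T2Space G] {e : ℕ → G} {U : ℕ → Set G} (hU : Chain e U)
    (hb : (𝓝 (1 : G)).HasBasis (fun _ : ℕ => True) U) {T : Set G} (hT : IsCompact T)
    (hTi : ∀ x ∈ T, x⁻¹ ∈ T) (y : ℕ → G)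
    (hy : ∀ d, y d ∉ W e (fun _ => T) d 0) :
    ∃ (V : ℕ → Set G) (j : ℕ → ℕ), Chain e V ∧ (∀ k, T ∩ U (j k) ⊆ V k) ∧ ∀ d, y d ∉ V 0 := by
  have h1 : ∀ d, ∃ i, y d ∉ U i * W e (fun _ => T) d 0 := by
    intro d
    have hK : IsClosed (W e (fun _ => T) d 0) := (isCompact_W e (fun _ => hT) d _).isClosed
    have h2 : Continuous (fun u : G => u⁻¹ * y d) := by fun_prop
    have h3 := h2.tendsto 1
    simp only [inv_one, one_mul] at h3
    obtain ⟨i, -, hi⟩ := hb.eventually_iff.1 (h3.eventually (hK.isOpen_compl.mem_nhds (hy d)))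
    refine ⟨i, ?_⟩
    rintro ⟨u, hu, w, hw, huw⟩
    apply hi hu
    have : u⁻¹ * y d = w := by rw [← huw]; group
    rwa [this]
  choose i hi using h1
  let b : ℕ → ℕ := fun d => (∑ l ∈ Finset.range (d + 1), i l) + d
  have hb1 : ∀ d, i d ≤ b d := by
    intro d
    have : i d ≤ ∑ l ∈ Finset.range (d + 1), i l :=
      Finset.single_le_sum (f := i) (fun _ _ => Nat.zero_le _) (Finset.mem_range.2 (by omega))
    simp only [b]
    omega
  have hb2 : ∀ d, b d + 1 ≤ b (d + 1) := by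
    intro d
    simp only [b, Finset.sum_range_succ _ (d + 1)]
    omega
  choose j hj using fun d => perturb hU hb hT d 0 (b d + 1)
  let A : ℕ → Set G := fun k => T ∩ U (j k)
  have hAT : ∀ l, A l ⊆ T := fun l => inter_subset_left
  have h4 : ∀ d, W e A (d + 1) 0 ⊆ U (b d + 1) * W e A d 0 := fun d =>
    hj d A hAT (by rw [zero_add]; exact inter_subset_right)
  have h5 : ∀ r d, W e A (d + r) 0 ⊆ U (b d) * W e A d 0 := by
    intro r
    induction r with
    | zero => intro d x hx; exact ⟨1, hU.one _, x, hx, one_mul x⟩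
    | succ r ih =>
      intro d x hx
      rw [show d + (r + 1) = d + 1 + r by ring] at hx
      obtain ⟨u, hu, w, hw, rfl⟩ := ih (d + 1) hx
      obtain ⟨u', hu', w', hw', rfl⟩ := h4 d hw
      exact ⟨u * u', hU.mul _ _ _ (hU.anti (hb2 d) hu) hu', w', hw', by group⟩
  refine ⟨fun k => ⋃ d, W e A d k, j, chain_W e ?_, ?_, ?_⟩
  · intro k x hx
    exact ⟨hTi x hx.1, hU.inv _ x hx.2⟩
  · intro k x hx
    exact mem_iUnion.2 ⟨1, mem_W_succ.2 (Or.inl hx)⟩
  · intro d hd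
    obtain ⟨d', hd'⟩ := mem_iUnion.1 hd
    have h6 : y d ∈ W e A (d + d') 0 := W_mono_depth e A 0 (Nat.le_add_left d' d) hd'
    obtain ⟨u, hu, w, hw, huw⟩ := h5 d' d h6
    exact hi d ⟨u, hU.anti (hb1 d) hu, w, W_mono e hAT d 0 hw, huw⟩

end Top

/-- a subset of a countable compact Hausdorff space has an isolated point -/
theorem exists_isolated {X : Type} [TopologicalSpace X] [T2Space X] [Countable X] {K O : Set X}
    (hK : IsCompact K) (hO : O ⊆ K) (hne : O.Nonempty) :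
    ∃ P : Set X, IsOpen P ∧ ∃ x, P ∩ O = {x} := by
  have hC : IsCompact (closure O) := hK.closure_of_subset hO
  have : CompactSpace (closure O) := isCompact_iff_compactSpace.1 hC
  have : Nonempty (closure O) := (hne.mono subset_closure).to_subtype
  obtain ⟨x, hx⟩ := nonempty_interior_of_iUnion_of_closed
    (f := fun x : closure O => ({x} : Set (closure O))) (fun _ => isClosed_singleton)
    (iUnion_of_singleton _)
  have h1 : IsOpen ({x} : Set (closure O)) := by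
    have : interior ({x} : Set (closure O)) = {x} :=
      (Set.subset_singleton_iff_eq.1 interior_subset).resolve_left hx.ne_empty
    rw [← this]
    exact isOpen_interior
  obtain ⟨P, hP, hPx⟩ := isOpen_induced_iff.1 h1
  have h2 : ∀ z ∈ P, z ∈ closure O → z = x := by
    intro z hz hzO
    have : (⟨z, hzO⟩ : closure O) ∈ Subtype.val ⁻¹' P := hz
    rw [hPx] at this
    exact congrArg Subtype.val this
  have h3 : (x : X) ∈ P := by
    have : x ∈ Subtype.val ⁻¹' P := by rw [hPx]; rfl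
    exact this
  obtain ⟨z, hzP, hzO⟩ := mem_closure_iff.1 x.2 P hP h3
  refine ⟨P, hP, x, ?_⟩
  ext w
  constructor
  · rintro ⟨hw1, hw2⟩
    exact h2 w hw1 (subset_closure hw2)
  · rintro rfl
    have := h2 z hzP (subset_closure hzO)
    exact ⟨h3, this ▸ hzO⟩

/-- the Frechet-Urysohn step -/
theorem exists_escaping [TopologicalSpace G] [IsTopologicalGroup G] [T2Space G]
    [FrechetUrysohnSpace G] (hnd : ¬ DiscreteTopology G) (K : ℕ → Set G) (hK : Monotone K)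
    (hint : ∀ m, ∀ O : Set G, IsOpen O → O.Nonempty → ¬ O ⊆ K m) :
    ∃ y : ℕ → G, Tendsto y atTop (𝓝 1) ∧ ∀ m, ∀ᶠ n in atTop, y n ∉ K m := by
  have h1 : (1 : G) ∈ closure ({1}ᶜ : Set G) := by
    by_contra h
    apply hnd
    rw [discreteTopology_iff_isOpen_singleton_one]
    rw [closure_compl, mem_compl_iff, not_not] at h
    have : interior ({1} : Set G) = {1} :=
      (Set.subset_singleton_iff_eq.1 interior_subset).resolve_left (Set.Nonempty.ne_empty ⟨1, h⟩)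
    rw [← this]
    exact isOpen_interior
  obtain ⟨x, hx1, hx2⟩ := mem_closure_iff_seq_limit.1 h1
  choose P Q hP hQ hxP hQ1 hPQ using fun m => t2_separation (show x m ≠ 1 from hx1 m)
  have h2 : (1 : G) ∈ closure (⋃ m, P m \ K m) := by
    rw [mem_closure_iff]
    intro O hO h1O
    obtain ⟨m, hm⟩ := (hx2.eventually (hO.mem_nhds h1O)).exists
    obtain ⟨z, hz1, hz2⟩ := not_subset.1 (hint m (O ∩ P m) (hO.inter (hP m)) ⟨x m, hm, hxP m⟩)
    exact ⟨z, hz1.1, mem_iUnion.2 ⟨m, hz1.2, hz2⟩⟩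
  obtain ⟨y, hy1, hy2⟩ := mem_closure_iff_seq_limit.1 h2
  refine ⟨y, hy2, fun m => ?_⟩
  have h3 : ∀ᶠ n in atTop, ∀ l ∈ Finset.range m, y n ∈ Q l := by
    rw [eventually_all_finset]
    intro l _
    exact hy2.eventually ((hQ l).mem_nhds (hQ1 l))
  filter_upwards [h3] with n hn hyK
  obtain ⟨l, hl1, hl2⟩ := mem_iUnion.1 (hy1 n)
  rcases lt_or_ge l m with h | h
  · exact Set.disjoint_left.1 (hPQ l) hl1 (hn l (Finset.mem_range.2 h))
  · exact hl2 (hK h hyK)

end H453Z.Rs
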