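import Mathlib

set_option autoImplicit false

open Filter Topology

namespace H453Z.Rs

/-- `t` is a Hausdorff group topology on `G` in which every sequence of `S` converges to the
identity. (So `S` is a `T_s`-set iff some `t` is admissible for it.) -/
def Admissible {G : Type} [Group G] (S : Set (ℕ → G)) (t : TopologicalSpace G) : Prop :=
  @IsTopologicalGroup G t _ ∧ @T2Space G t ∧ ∀ u ∈ S, Tendsto u atTop (@nhds G t 1)

/-- `S` is a `T_s`-set and `τ = τ_S`: the topology `τ` is admissible for `S` and is finer than
every admissible topology. -/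
def Generates {G : Type} [Group G] (S : Set (ℕ → G)) (τ : TopologicalSpace G) : Prop :=
  Admissible S τ ∧ ∀ t : TopologicalSpace G, Admissible S t →
    ∀ U : Set G, IsOpen[t] U → IsOpen[τ] U

/-- `r_s(G, τ)`: the least cardinality of a set `S` of sequences with `τ_S = τ`. -/
noncomputable def rs (G : Type) [Group G] (τ : TopologicalSpace G) : Cardinal :=
  sInf {c : Cardinal | ∃ S : Set (ℕ → G), Generates S τ ∧ Cardinal.mk S = c}

/-- The bounding number: the least cardinality of a family of functions `ℕ → ℕ` which is not
eventually dominated by a single function. -/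
noncomputable def boundingNumber : Cardinal :=
  sInf {c : Cardinal | ∃ F : Set (ℕ → ℕ), Cardinal.mk F = c ∧
    ¬ ∃ g : ℕ → ℕ, ∀ f ∈ F, ∀ᶠ n in atTop, f n ≤ g n}

end H453Z.Rs
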