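import Pool.Agent.H453Z.Rs.ForceDefs
import Pool.Agent.Helper835.PX.PI

set_option autoImplicit false

namespace H453Z.Rs.Force

open Pool.Agent.Helper161.Gam Pool.Agent.Helper835.PX Cardinal

variable {P : Type} [Preorder P]

theorem no_collapse {Y : Type} [Uncountable Y] (hc : CCC P) (p : P) :
    p ∈ fnot (fex fun R : ℕ → Y → Set P =>
      fand (IsFun R) (fall fun y => fex fun x => meets (R x y))) := by
  intro q _ hq
  obtain ⟨r, -, R, hR1, hR2⟩ := mem_fex.1 hq q le_rfl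
  have h1 : ∀ n, {y | ∃ t ≤ r, t ∈ meets (R n y)}.Countable := by
    intro n
    have h2 : ∀ y : {y | ∃ t ≤ r, t ∈ meets (R n y)}, ∃ t ≤ r, t ∈ meets (R n y) := fun y => y.2
    choose t ht1 ht2 using h2
    have h3 : ∀ y y' s, s ≤ t y → s ≤ t y' → y = y' := by
      intro y y' s hs hs'
      exact Subtype.ext (IsFun.unique (down_IsFun R r hR1 s (hs.trans (ht1 y)))
        (down_meets _ _ (ht2 y) s hs) (down_meets _ _ (ht2 y') s hs'))
    have h4 : (Set.range t).Countable := by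
      refine hc _ ?_
      rintro _ ⟨y, rfl⟩ _ ⟨y', rfl⟩ ⟨s, hs, hs'⟩
      rw [h3 y y' s hs hs']
    have h5 : Function.Injective t := fun y y' h => h3 y y' (t y) le_rfl h.le
    have h6 := h4.to_subtype
    exact Set.countable_coe_iff.1 ((Equiv.ofInjective t h5).countable_iff.2 h6)
  have h7 : ¬ (Set.univ : Set Y) ⊆ ⋃ n, {y | ∃ t ≤ r, t ∈ meets (R n y)} := fun h =>
    Set.not_countable_univ ((Set.countable_iUnion h1).mono h)
  obtain ⟨y, -, hy⟩ := Set.not_subset.1 h7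
  obtain ⟨t, ht, n, hn⟩ := mem_fex.1 (hR2 y) r le_rfl
  exact hy (Set.mem_iUnion.2 ⟨n, t, ht, hn⟩)

theorem bounded_of_belowP {J K : Type} [Nonempty J] (π : K → J × ℕ) (hπ : Function.Surjective π)
    (p : P) (hp : p ∈ BelowP P K) :
    p ∈ fall fun f : J → ℕ → ℕ → Set P => fimp (fall fun a => IsFun (f a))
    (fex fun g : ℕ → ℕ → Set P => fand (IsFun g)
      (fall fun a => fex fun m : ℕ => fall fun n => fall fun x => fall fun y =>
        fimp (fand (fground (m ≤ n)) (fand (meets (f a n x)) (meets (g n y))))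
          (fground (x ≤ y)))) := by
  classical
  refine mem_fall.2 fun f => mem_fimp.2 fun q hqp hq => ?_
  let A : K → ℕ → Set P := fun e c => {t | (π e).2 ≤ (Nat.unpair c).1 ∧
    ∀ i ≤ (Nat.unpair c).1, ∃ x ≤ (Nat.unpair c).2, t ∈ meets (f (π e).1 i x)}
  have hA : ∀ e c, Down (A e c) := by
    intro e c t ht s hs
    refine ⟨ht.1, fun i hi => ?_⟩
    obtain ⟨x, hx, hx'⟩ := ht.2 i hi
    exact ⟨x, hx, down_meets _ _ hx' s hs⟩
  have hS : q ∈ SFIP A := by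
    refine mem_fall.2 fun H => mem_fall.2 fun m => mem_fex.2 fun s hs => ?_
    set n := max m (H.sup fun e => (π e).2) with hn
    obtain ⟨r, hr, hr'⟩ := fin_strengthen (H ×ˢ Finset.range (n + 1))
      (fun z => {t | ∃ x, t ∈ meets (f (π z.1).1 z.2 x)})
      (fun z _ t ht u hu => by
        obtain ⟨x, hx⟩ := ht
        exact ⟨x, down_meets _ _ hx u hu⟩) s
      (fun z _ t ht => IsFun.total (down_IsFun _ q (hq _) t (ht.trans hs)) z.2)
    choose! val hval using hr'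
    set M := (H ×ˢ Finset.range (n + 1)).sup val with hM
    refine ⟨r, hr, Nat.pair n M, (le_max_left _ _).trans (Nat.left_le_pair n M), fun e he => ?_⟩
    refine meets_of_mem ⟨?_, ?_⟩
    · rw [Nat.unpair_pair]
      exact (Finset.le_sup (f := fun e => (π e).2) he).trans (le_max_right _ _)
    · rw [Nat.unpair_pair]
      intro i hi
      have hz : (e, i) ∈ H ×ˢ Finset.range (n + 1) :=
        Finset.mem_product.2 ⟨he, Finset.mem_range.2 (Nat.lt_succ_of_le hi)⟩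
      exact ⟨val (e, i), Finset.le_sup hz, hval (e, i) hz⟩
  obtain ⟨r0, hr0, hG⟩ := mem_fimp.1 (hp A) q hqp hS
  obtain ⟨r, hr, G, hG1, hG2⟩ := mem_fex.1 hG r0 le_rfl
  have hrq : r ≤ q := hr.trans hr0
  let g : ℕ → ℕ → Set P := fun i y => {t | ∃ c, (Nat.unpair c).2 = y ∧ i ≤ (Nat.unpair c).1 ∧
    t ∈ meets (G c) ∧ ∀ c' < c, i ≤ (Nat.unpair c').1 → t ∈ fnot (meets (G c'))}
  have hg : ∀ i y, Down (g i y) := by
    rintro i y t ⟨c, h1, h2, h3, h4⟩ s hs
    exact ⟨c, h1, h2, down_meets _ _ h3 s hs, fun c' hc' hi => down_fnot _ _ (h4 c' hc' hi) s hs⟩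
  refine ⟨r, hrq, mem_fex_of_mem g
    (down_fand (down_IsFun g) (down_fall fun _ => down_fex _)) ⟨⟨?_, ?_⟩, ?_⟩⟩
  · refine mem_fall.2 fun i => mem_fex.2 fun t ht => ?_
    have hex : ∃ c, i ≤ (Nat.unpair c).1 ∧ ∃ t' ≤ t, t' ∈ meets (G c) := by
      obtain ⟨e, he⟩ := hπ (Classical.arbitrary J, i)
      obtain ⟨t1, ht1, m, hm⟩ := mem_fex.1 (hG2 e) t ht
      obtain ⟨t2, ht2, c, hc1, hc2⟩ := mem_fex.1 (hG1 m) t1 (ht1.trans ht)
      obtain ⟨t3, ht3, hc3⟩ := mem_fimp.1 (hm c) t2 ht2 ⟨hc1, hc2⟩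
      obtain ⟨t4, -, hc4⟩ := exists_of_meets (hA e c) hc3
      refine ⟨c, ?_, t2, ht2.trans ht1, hc2⟩
      have := hc4.1
      rwa [he] at this
    obtain ⟨h1, t', ht', h2⟩ := Nat.find_spec hex
    refine ⟨t', ht', _, meets_of_mem ⟨Nat.find hex, rfl, h1, h2, fun c' hc' hi s hs hs' => ?_⟩⟩
    exact Nat.find_min hex hc' ⟨hi, s, hs.trans ht', hs'⟩
  · refine mem_fall.2 fun i => mem_fall.2 fun y => mem_fall.2 fun y' => mem_fimp.2 ?_
    rintro t - ⟨h1, h2⟩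
    obtain ⟨t1, ht1, h3⟩ := exists_of_meets (hg i y) h1
    obtain ⟨t2, ht2, h4⟩ := exists_of_meets (hg i y') (down_meets _ _ h2 t1 ht1)
    obtain ⟨c, a1, a2, a3, a4⟩ := hg i y t1 h3 t2 ht2
    obtain ⟨c', b1, b2, b3, b4⟩ := h4
    refine ⟨t, le_rfl, ?_⟩
    rcases lt_trichotomy c c' with h | h | h
    · exact absurd a3 (b4 c h a2 t2 le_rfl)
    · rw [mem_fground, ← a1, ← b1, h]
    · exact absurd b3 (a4 c' h b2 t2 le_rfl)
  · refine mem_fall.2 fun a => mem_fex.2 fun t ht => ?_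
    obtain ⟨e, he⟩ := hπ (a, 0)
    obtain ⟨t1, ht1, m, hm⟩ := mem_fex.1 (hG2 e) t ht
    refine ⟨t1, ht1, m, fun n x y => mem_fimp.2 ?_⟩
    rintro t2 ht2 ⟨h1, h2, h3⟩
    obtain ⟨t3, ht3, c, a1, a2, a3, -⟩ := exists_of_meets (hg n y) h3
    have h4 : m ≤ c := (mem_fground.1 h1).trans (a2.trans (Nat.unpair_left_le c))
    obtain ⟨t4, ht4, h5⟩ := mem_fimp.1 (hm c) t3 (ht3.trans ht2) ⟨h4, a3⟩
    obtain ⟨t5, ht5, h6⟩ := exists_of_meets (hA e c) h5
    obtain ⟨x', hx1, hx2⟩ := h6.2 n a2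
    rw [he] at hx2
    have h7 : t5 ≤ t2 := ht5.trans (ht4.trans ht3)
    have h8 : x = x' := IsFun.unique
      (down_IsFun _ q (hq a) t5 (h7.trans (ht2.trans (ht1.trans (ht.trans hrq)))))
      (down_meets _ _ h2 t5 h7) hx2
    refine ⟨t2, le_rfl, ?_⟩
    rw [mem_fground, h8, ← a1]
    exact hx1

theorem exists_forcing : ∃ (P : Type) (_ : Preorder P), Nonempty P ∧ ∀ p : P,
    p ∈ Pool.Agent.Helper292.ForceCH.OmegaOnePreserved P ∧ p ∈ BoundingAbove P := by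
  have h1 : #Pool.Agent.Helper292.ForceCH.Om = ℵ₁ := by simp
  have h2 : Uncountable Pool.Agent.Helper292.ForceCH.Om := by
    rw [← aleph0_lt_mk_iff, h1]
    exact aleph0_lt_aleph_one
  have h3 : #(Pool.Agent.Helper292.ForceCH.Om × ℕ) ≤ #E := by
    rw [mk_prod, lift_id, lift_id, h1, mk_nat, mul_eq_left (aleph0_le_aleph 1) (aleph0_le_aleph 1)
      aleph0_ne_zero]
    have : #E = 𝔠 := by simp [E]
    rw [this]
    exact aleph_one_le_continuum
  obtain ⟨i⟩ := (Cardinal.le_def _ _).1 h3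
  refine ⟨Cnd, inferInstance, ⟨0⟩, fun p => ⟨no_collapse ccc p, ?_⟩⟩
  exact bounded_of_belowP (Function.invFun i) (Function.invFun_surjective i.injective) p
    (below_p p)

end H453Z.Rs.Force
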