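import Pool.Agent.Helper292.ForceCH

set_option autoImplicit false

namespace H453Z.Rs

open Pool.Agent.Helper292.ForceCH

/-- The sentence `ω₁ < 𝔟` of the forcing language: every family of functions `ℕ → ℕ` indexed by
`ω₁` is eventually dominated by one function (`f a n x` names the statement `f_a(n) = x`, and
`g n y` names the statement `g(n) = y`). -/
def BoundingAbove (P : Type) [Preorder P] : Set P :=
  fall fun f : Om → ℕ → ℕ → Set P => fimp (fall fun a => IsFun (f a))
    (fex fun g : ℕ → ℕ → Set P => fand (IsFun g)
      (fall fun a => fex fun m : ℕ => fall fun n => fall fun x => fall fun y =>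
        fimp (fand (fground (m ≤ n)) (fand (meets (f a n x)) (meets (g n y))))
          (fground (x ≤ y))))

end H453Z.Rs
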