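import Pool.Agent.H453Z.Rs.Chain
import Pool.Agent.H290Z.Rs.Glue

set_option autoImplicit false

open Filter Topology Set Cardinal

namespace H453Z.Rs

open Pool.Agent.H290Z.Rs

/-- the countably supported elements of a power -/
def Sig (I F : Type) [Group F] : Subgroup (I → F) where
  carrier := {x | {i | x i ≠ 1}.Countable}
  one_mem' := by simp
  mul_mem' := by
    intro x y hx hy
    refine (hx.union hy).mono fun i hi => ?_
    by_contra h
    simp only [mem_union, mem_ofPred_eq, not_or, not_not] at h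
    exact hi (by simp [h.1, h.2])
  inv_mem' := by
    intro x hx
    simpa using hx

variable {I F : Type} [Group F] [TopologicalSpace F] [DiscreteTopology F]

theorem tendsto_sig_iff {ι : Type} {l : Filter ι} {y : ι → Sig I F} {x : Sig I F} :
    Tendsto y l (𝓝 x) ↔ ∀ i, ∀ᶠ n in l, (y n).1 i = x.1 i := by
  rw [tendsto_subtype_rng, tendsto_pi_nhds]
  refine forall_congr' fun i => ?_
  rw [nhds_discrete, tendsto_pure]

theorem frechet_sig : FrechetUrysohnSpace (Sig I F) := by
  classical
  refine ⟨fun E x hx => ?_⟩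
  have h1 : ∀ y : Sig I F, ∃ c : ℕ → Finset I, ∀ i, y.1 i ≠ 1 → ∀ᶠ n in atTop, i ∈ c n := by
    intro y
    obtain ⟨f, hf⟩ := Set.countable_iff_exists_injOn.1 y.2
    have hfin : ∀ n, {i | y.1 i ≠ 1 ∧ f i ≤ n}.Finite := by
      intro n
      refine Set.Finite.of_finite_image ((finite_Iic n).subset ?_) (hf.mono fun i hi => hi.1)
      rintro _ ⟨i, hi, rfl⟩
      exact hi.2
    refine ⟨fun n => (hfin n).toFinset, fun i hi => ?_⟩
    filter_upwards [eventually_ge_atTop (f i)] with n hn
    simpa using ⟨hi, hn⟩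
  choose c hc using h1
  have h2 : ∀ D : Finset I, ∃ y ∈ E, ∀ i ∈ D, y.1 i = x.1 i := by
    intro D
    have h3 : ∀ᶠ y in 𝓝 x, ∀ i ∈ D, y.1 i = x.1 i := by
      rw [eventually_all_finset]
      intro i _
      exact tendsto_sig_iff.1 tendsto_id i
    obtain ⟨y, hy1, hy2⟩ := mem_closure_iff_nhds.1 hx _ h3
    exact ⟨y, hy2, hy1⟩
  choose Y hY1 hY2 using h2
  let P : ℕ → ℕ → Finset I := fun n => Nat.rec (c x) (fun n Pn k => Pn k ∪ c (Y (Pn n)) k) n
  have hPs : ∀ n k, P (n + 1) k = P n k ∪ c (Y (P n n)) k := fun n k => rfl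
  have hPm : ∀ k, Monotone fun n => P n k := fun k =>
    monotone_nat_of_le_succ fun n => by
      simp only [hPs]
      exact Finset.subset_union_left
  refine ⟨fun n => Y (P n n), fun n => hY1 _, tendsto_sig_iff.2 fun i => ?_⟩
  by_cases hxi : x.1 i = 1
  · by_cases hm : ∃ m, (Y (P m m)).1 i ≠ 1
    · obtain ⟨m, hm⟩ := hm
      filter_upwards [hc _ i hm, eventually_ge_atTop (m + 1)] with n hn1 hn2
      refine hY2 _ i (hPm n hn2 ?_)
      simp only [hPs]
      exact Finset.mem_union_right _ hn1
    · push Not at hm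
      exact Eventually.of_forall fun n => (hm n).trans hxi.symm
  · filter_upwards [hc _ i hxi] with n hn
    exact hY2 _ i (hPm n (Nat.zero_le n) hn)

/-- the embedding of a countable subproduct -/
noncomputable def emb (c : ℕ → I) : (ℕ → F) →* Sig I F :=
  (Function.ExtendByOne.hom F c).codRestrict (Sig I F) fun t => by
    refine (countable_range c).mono fun i hi => ?_
    by_contra h
    exact hi (Function.extend_apply' _ _ _ h)

omit [TopologicalSpace F] [DiscreteTopology F] in
theorem emb_apply {c : ℕ → I} (hc : Function.Injective c) (t : ℕ → F) (n : ℕ) :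
    (emb c t).1 (c n) = t n := hc.extend_apply _ _ _

omit [TopologicalSpace F] [DiscreteTopology F] in
theorem emb_apply' {c : ℕ → I} (t : ℕ → F) {i : I} (hi : i ∉ range c) :
    (emb c t).1 i = 1 := Function.extend_apply' _ _ _ hi

theorem generates_sig [Finite F] [IsSimpleGroup F] (a b : F) (hab : b * a ≠ a * b) {J : Type}
    (c : J → ℕ → I) (hc : ∀ j, Function.Injective (c j))
    (hcof : ∀ A : Set I, A.Countable → ∃ j, A ⊆ range (c j)) :
    Generates (range fun j n => emb (c j) (tail n fun _ => a))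
      (inferInstance : TopologicalSpace (Sig I F)) := by
  have := frechet_sig (I := I) (F := F)
  have hall := generates_all (G := Sig I F)
  refine ⟨⟨inferInstance, inferInstance, ?_⟩, ?_⟩
  · rintro _ ⟨j, rfl⟩
    refine tendsto_sig_iff.2 fun i => ?_
    by_cases hi : i ∈ range (c j)
    · obtain ⟨m, rfl⟩ := hi
      filter_upwards [eventually_gt_atTop m] with n hn
      rw [emb_apply (hc j)]
      simp [tail, hn]
    · exact Eventually.of_forall fun n => emb_apply' _ hi
  · have key : ∀ x : ℕ → Sig I F, Tendsto x atTop (𝓝 1) → ∀ i, ∀ᶠ n in atTop, (x n).1 i = 1 :=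
      fun x hx => tendsto_sig_iff.1 hx
    intro t ht
    refine hall.2 t ⟨ht.1, ht.2.1, fun x hx => ?_⟩
    have hx' := key x hx
    obtain ⟨j, hj⟩ := hcof (⋃ n, {i | (x n).1 i ≠ 1}) (countable_iUnion fun n => (x n).2)
    have h1 := ht.1
    have h2 : @IsTopologicalGroup (ℕ → F) (TopologicalSpace.induced (emb (c j)) t) _ :=
      topologicalGroup_induced (emb (c j))
    have h3 : Tendsto (fun n => tail n fun _ => a) atTop
        (@nhds _ (TopologicalSpace.induced (emb (c j)) t) 1) := by
      rw [nhds_induced, tendsto_comap_iff, map_one]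
      exact ht.2.2 _ ⟨j, rfl⟩
    intro V hV
    obtain ⟨N, hN⟩ := nhds_contains_tail a b hab _ h2 h3 (emb (c j) ⁻¹' V) (by
      rw [nhds_induced, map_one]
      exact preimage_mem_comap hV)
    have h4 : ∀ᶠ n in atTop, ∀ i ∈ Finset.range N, (x n).1 (c j i) = 1 := by
      rw [eventually_all_finset]
      intro i _
      exact hx' _
    rw [mem_map]
    filter_upwards [h4] with n hn
    have h5 := hN (fun i => (x n).1 (c j i)) fun i hi => hn i (Finset.mem_range.2 hi)
    have h6 : emb (c j) (fun i => (x n).1 (c j i)) = x n := by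
      apply Subtype.ext
      funext i
      by_cases hi : i ∈ range (c j)
      · obtain ⟨m, rfl⟩ := hi
        rw [emb_apply (hc j)]
      · rw [emb_apply' _ hi]
        by_contra h
        exact hi (hj (mem_iUnion.2 ⟨n, fun h' => h h'.symm⟩))
    rw [mem_preimage, h6] at h5
    exact h5

theorem not_generates_countable [Nontrivial F] [Uncountable I] (S : Set (ℕ → Sig I F))
    (hS : S.Countable) : ¬ Generates S (inferInstance : TopologicalSpace (Sig I F)) := by
  classical
  intro hgen
  set A : Set I := ⋃ u ∈ S, ⋃ n, {i | (u n).1 i ≠ 1} with hA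
  have hAc : A.Countable := hS.biUnion fun u _ => countable_iUnion fun n => (u n).2
  let π : Sig I F →* ((Aᶜ : Set I) → F) :=
    { toFun := fun x i => x.1 i
      map_one' := rfl
      map_mul' := fun _ _ => rfl }
  have hbot : @IsTopologicalGroup ((Aᶜ : Set I) → F) ⊥ _ := by
    let _ : TopologicalSpace ((Aᶜ : Set I) → F) := ⊥
    have : DiscreteTopology ((Aᶜ : Set I) → F) := ⟨rfl⟩
    infer_instance
  have h1 : @IsTopologicalGroup (Sig I F) (TopologicalSpace.induced π ⊥) _ :=
    @topologicalGroup_induced _ _ ⊥ _ hbot _ _ _ _ π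
  have h2 : @nhds (Sig I F) (TopologicalSpace.induced π ⊥) 1 = 𝓟 (π ⁻¹' {1}) := by
    rw [@nhds_induced _ _ ⊥, map_one, @nhds_discrete _ ⊥ (discreteTopology_bot _), comap_pure]
  have h3 := hgen.nhds_le _ h1 (by
    intro u hu
    rw [h2, tendsto_principal]
    refine Eventually.of_forall fun n => ?_
    funext i
    by_contra h
    exact i.2 (mem_biUnion hu (mem_iUnion.2 ⟨n, h⟩)))
  rw [h2, le_principal_iff] at h3
  obtain ⟨a, ha⟩ := exists_ne (1 : F)
  let y : I → Sig I F := fun j => ⟨fun i => if i = j then a else 1,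
    (countable_singleton j).mono fun i hi => by
      by_contra h
      exact hi (if_neg h)⟩
  have h4 : Tendsto y cofinite (𝓝 1) := by
    refine tendsto_sig_iff.2 fun i => ?_
    filter_upwards [eventually_cofinite_ne i] with j hj
    exact if_neg hj.symm
  have h5 : {j | y j ∉ π ⁻¹' {1}}.Finite := h4 h3
  have h6 : (univ : Set I) ⊆ A ∪ {j | y j ∉ π ⁻¹' {1}} := by
    intro j _
    by_cases hj : j ∈ A
    · exact Or.inl hj
    · refine Or.inr fun h => ha ?_
      have := congrFun h ⟨j, hj⟩
      simpa [π, y] using this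
  exact not_countable_univ ((hAc.union h5.countable).mono h6)

/-- the first uncountable ordinal as a type -/
abbrev Om : Type := (ℵ₁ : Cardinal.{0}).ord.ToType

theorem mk_Om : #Om = ℵ₁ := by simp

instance : Uncountable Om := by
  rw [← aleph0_lt_mk_iff, mk_Om]
  exact aleph0_lt_aleph_one

theorem countable_Iic (a : Om) : (Iic a).Countable := by
  have h : #(Set.Iio a) < ℵ₁ := mk_Iio_toType_ord_lt a
  have h1 : ℵ₁ ≤ Order.succ (ℵ₀ : Cardinal.{0}) := succ_aleph0.ge
  have h2 : (Iio a).Countable :=
    le_aleph0_iff_set_countable.1 (Order.lt_succ_iff.1 (h.trans_le h1))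
  rw [← Iio_insert]
  exact h2.insert a

theorem exists_cofinal : ∃ c : Om → ℕ → Om, (∀ j, Function.Injective (c j)) ∧
    ∀ A : Set Om, A.Countable → ∃ j, A ⊆ range (c j) := by
  have h1 : ∀ j : Om, ∃ c : ℕ → Om, Function.Injective c ∧ Iic j ⊆ range c := by
    intro j
    let f := Infinite.natEmbedding Om
    have hc : (Iic j ∪ range f).Countable := (countable_Iic j).union (countable_range f)
    have hi : (Iic j ∪ range f).Infinite :=
      (infinite_range_of_injective f.injective).mono subset_union_right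
    have := hc.to_subtype
    have := hi.to_subtype
    obtain ⟨e⟩ : Nonempty (ℕ ≃ (Iic j ∪ range f : Set Om)) := inferInstance
    refine ⟨fun n => (e n).1, Subtype.val_injective.comp e.injective, fun i hi => ?_⟩
    exact ⟨e.symm ⟨i, Or.inl hi⟩, by simp⟩
  choose c hc1 hc2 using h1
  refine ⟨c, hc1, fun A hA => ?_⟩
  have h2 : (⋃ a ∈ A, Iic a).Countable := hA.biUnion fun a _ => countable_Iic a
  have h3 : ¬ (univ : Set Om) ⊆ ⋃ a ∈ A, Iic a := fun h => not_countable_univ (h2.mono h)
  obtain ⟨j, -, hj⟩ := not_subset.1 h3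
  refine ⟨j, fun a ha => hc2 j ?_⟩
  by_contra h
  exact hj (mem_biUnion ha (show j ≤ a from le_of_lt (not_le.1 h)))

theorem rs_sig [Finite F] [IsSimpleGroup F] (a b : F) (hab : b * a ≠ a * b) :
    (∃ S : Set (ℕ → Sig Om F), Generates S (inferInstance : TopologicalSpace (Sig Om F))) ∧
    rs (Sig Om F) inferInstance = ℵ₁ := by
  obtain ⟨c, hc1, hc2⟩ := exists_cofinal
  have h1 := generates_sig a b hab c hc1 hc2
  refine ⟨⟨_, h1⟩, le_antisymm ?_ ?_⟩
  · have h2 : rs (Sig Om F) inferInstance ≤ #(range fun j n => emb (c j) (tail n fun _ => a)) :=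
      csInf_le' ⟨_, h1, rfl⟩
    exact h2.trans (mk_range_le.trans mk_Om.le)
  · refine le_csInf ⟨_, _, h1, rfl⟩ ?_
    rintro _ ⟨S, hS, rfl⟩
    rw [← succ_aleph0, Order.succ_le_iff, ← not_le, le_aleph0_iff_set_countable]
    exact fun h => not_generates_countable S h hS

theorem exists_group : ∃ (G : Type) (_ : Group G) (τ : TopologicalSpace G),
    IsTopologicalGroup G ∧ T2Space G ∧ FrechetUrysohnSpace G ∧
    (∃ S : Set (ℕ → G), Generates S τ) ∧ rs G τ = ℵ₁ := by
  let F : Type := alternatingGroup (Fin 5)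
  let _ : TopologicalSpace F := ⊥
  have : DiscreteTopology F := ⟨rfl⟩
  have hsimple : IsSimpleGroup F := alternatingGroup.isSimpleGroup (by simp)
  have hnc : ∃ a c : F, c * a ≠ a * c := by
    refine ⟨⟨Equiv.swap 0 1 * Equiv.swap 1 2, Equiv.Perm.mem_alternatingGroup.2 (by decide)⟩,
      ⟨Equiv.swap 0 1 * Equiv.swap 2 3, Equiv.Perm.mem_alternatingGroup.2 (by decide)⟩, ?_⟩
    intro h
    have := congrArg (fun g : F => (g : Equiv.Perm (Fin 5)) 0) h
    revert this
    decide
  obtain ⟨a, b, hab⟩ := hnc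
  exact ⟨Sig Om F, inferInstance, inferInstance, inferInstance, inferInstance, frechet_sig,
    rs_sig a b hab⟩

end H453Z.Rs
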